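import Pool.Agent.CRD.Top.Stmts

open CategoryTheory Opposite Limits Pretriangulated

universe v v' u u' w

namespace Pool.CRD

section
variable (K : Type w) [Field K] (T : Type u) [Category.{v} T] [HasZeroObject T] [HasShift T ℤ]
  [Preadditive T] [∀ (n : ℤ), (shiftFunctor T n).Additive] [Pretriangulated T] [Linear K T]

/-- the type of a point-like object in a block -/
lemma num_type {r d : ℤ} {n r' d' ε : ℤ} (hr' : 0 ≤ r') (hε : ε = 1 ∨ ε = -1)
    (h1 : (n.negOnePow : ℤ) * (r * (r' + d') - r' * d) = ε)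
    (h2 : (n.negOnePow : ℤ) * (r * (r' - d') + r' * d) = ε) :
    r' = 1 ∧ (r = 1 ∨ r = -1) ∧ d = r * d' := by
  have hs : (n.negOnePow : ℤ) = 1 ∨ (n.negOnePow : ℤ) = -1 := by
    rcases Int.even_or_odd n with h | h
    · left; rw [Int.negOnePow_even n h]; rfl
    · right; rw [Int.negOnePow_odd n h]; rfl
  have key : r * r' = 1 ∨ r * r' = -1 := by
    rcases hs with h | h <;> rw [h] at h1 h2 <;> rcases hε with rfl | rfl
    · left; linarith
    · right; linarith
    · right; linarith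
    · left; linarith
  have key2 : r * d' = r' * d := by
    rcases hs with h | h <;> rw [h] at h1 h2 <;> linarith
  have hr1 : r' = 1 := by
    rcases key with h | h
    · have := Int.isUnit_iff.1 (IsUnit.of_mul_eq_one r (by rw [mul_comm]; exact h) : IsUnit r')
      omega
    · have := Int.isUnit_iff.1 (IsUnit.of_mul_eq_one (-r) (by linarith) : IsUnit r')
      omega
  subst hr1
  refine ⟨rfl, ?_, ?_⟩
  · simpa using key
  · linarith

open ZeroObject in
/-- the objects killed by an additive function form a triangulated subcategory -/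
lemma additive_zero (ρ : T → ℤ)
    (hadd : ∀ Δ ∈ distTriang T, ρ Δ.obj₂ = ρ Δ.obj₁ + ρ Δ.obj₃) :
    ObjectProperty.IsTriangulated (fun M => ρ M = 0 : ObjectProperty T) ∧
    ObjectProperty.IsClosedUnderIsomorphisms (fun M => ρ M = 0 : ObjectProperty T) := by
  have h0 : ρ (0 : T) = 0 := by
    have h := hadd _ (contractible_distinguished (0 : T))
    change ρ 0 = ρ 0 + ρ 0 at h
    linarith
  have hiso : ∀ {X Y : T} (e : X ≅ Y), ρ X = ρ Y := by
    intro X Y e
    have h := hadd (Triangle.mk e.hom (0 : Y ⟶ 0) 0)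
      ((isomorphic_distinguished _ (contractible_distinguished X) _
        (Triangle.isoMk _ _ (Iso.refl _) e.symm (Iso.refl _) (e.hom_inv_id.trans (Category.comp_id _).symm)
          (zero_comp.trans comp_zero.symm) (zero_comp.trans comp_zero.symm))))
    change ρ Y = ρ X + ρ 0 at h
    linarith
  have hs1 : ∀ X : T, ρ (X⟦(1 : ℤ)⟧) = - ρ X := by
    intro X
    have h := hadd _ (rot_of_distTriang _ (contractible_distinguished X))
    change ρ 0 = ρ X + ρ (X⟦(1 : ℤ)⟧) at h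
    linarith
  have hs : ∀ (n : ℤ) (X : T), ρ X = 0 → ρ (X⟦n⟧) = 0 := by
    intro n
    induction n using Int.induction_on with
    | zero =>
      intro X hX
      rw [hiso ((shiftFunctorZero T ℤ).app X)]
      exact hX
    | succ n ih =>
      intro X hX
      rw [hiso ((shiftFunctorAdd' T (n : ℤ) 1 _ rfl).app X)]
      dsimp
      rw [hs1, ih X hX, neg_zero]
    | pred n ih =>
      intro X hX
      have h1 := hs1 (X⟦(-(n : ℤ) - 1)⟧)
      have h2 := hiso ((shiftFunctorAdd' T (-(n : ℤ) - 1) 1 (-(n : ℤ)) (by ring)).app X)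
      dsimp at h2
      rw [← h2, ih X hX] at h1
      linarith
  haveI : ObjectProperty.IsClosedUnderIsomorphisms (fun M => ρ M = 0 : ObjectProperty T) :=
    ⟨fun e h => by rw [← hiso e]; exact h⟩
  refine ⟨?_, inferInstance⟩
  haveI : ObjectProperty.ContainsZero (fun M => ρ M = 0 : ObjectProperty T) :=
    ⟨⟨0, isZero_zero T, h0⟩⟩
  haveI : ObjectProperty.IsStableUnderShift (fun M => ρ M = 0 : ObjectProperty T) ℤ :=
    ⟨fun n => ⟨fun X hX => hs n X hX⟩⟩
  haveI : ObjectProperty.IsTriangulatedClosed₂ (fun M => ρ M = 0 : ObjectProperty T) :=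
    ⟨fun Δ hΔ h1 h3 => ObjectProperty.le_isoClosure _ _ (by
      have := hadd Δ hΔ
      change ρ Δ.obj₁ = 0 at h1
      change ρ Δ.obj₃ = 0 at h3
      change ρ Δ.obj₂ = 0
      rw [this, h1, h3, add_zero])⟩
  exact {}

theorem T2_proof [CharZero K] : Stmt_T2 K T := by
  rintro ⟨r, d, c, φ, ρ, hfin, heven, hφρ, hadd, hne, hpt⟩ l B hS hB
  choose N hN hblock using hB
  -- every functional φ i is non-zero on some block
  have step : ∀ i : ℤ, ∃ j, ∃ M, B j M ∧ (φ i).φ M ≠ 0 := by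
    intro i
    by_contra hcon
    push Not at hcon
    obtain ⟨M₀, hM₀⟩ := hne i
    obtain ⟨ht, hi⟩ := additive_zero T (ρ i) (hadd i)
    refine hM₀ (hS.gen (fun M => ρ i M = 0) ht hi (fun j M hM => ?_) M₀)
    have h1 := hφρ i M
    rw [hcon j M hM] at h1
    simpa using h1.symm
  -- the data of a point
  have pt : ∀ i : ℤ, ∃ j, ∃ P, B j P ∧ IsPointLike K P ∧ (φ i).φ P ≠ 0 ∧
      ∃ n d' : ℤ, (r (N j) = 1 ∨ r (N j) = -1) ∧ d (N j) = r (N j) * d' ∧
        (∀ M, chi K M P = (n.negOnePow : ℤ) * (r M * (1 + d') - d M)) ∧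
        (∀ k, d' = 2 * k → (φ k).φ P = 0) := by
    intro i
    obtain ⟨j, M, hM, hφM⟩ := step i
    obtain ⟨P, hP, hpl, hφP, ε, hε, h1, h2⟩ := hblock j (φ i) ⟨M, hM, hφM⟩
    obtain ⟨n, r', d', hr', c1, c2, c3⟩ := hpt P hpl
    rw [c1] at h1
    rw [c2] at h2
    obtain ⟨hr1, hrN, hd⟩ := num_type hr' hε h1 h2
    subst hr1
    refine ⟨j, P, hP, hpl, hφP, n, d', hrN, hd, ?_, c3 rfl⟩
    intro M
    rw [c1 M]; ring
  obtain ⟨j₀, P₀, hP₀, hpl₀, hφ₀, n₀, d₀, hr₀, hd₀, hchi₀, hz₀⟩ := pt 0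
  have he₀ : Even d₀ := by
    have h := heven (N j₀)
    rw [hd₀] at h
    rcases hr₀ with h' | h' <;> rw [h'] at h <;> simpa using h
  obtain ⟨i₀, hi₀⟩ := he₀
  obtain ⟨j₁, P₁, hP₁, hpl₁, hφ₁, n₁, d₁, hr₁, hd₁, hchi₁, hz₁⟩ := pt i₀
  have he₁ : Even d₁ := by
    have h := heven (N j₁)
    rw [hd₁] at h
    rcases hr₁ with h' | h' <;> rw [h'] at h <;> simpa using h
  -- vanishing of chi between different blocks
  have orth : ∀ i j, i < j → ∀ X Y, B j X → B i Y → chi K X Y = 0 := by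
    intro i j hij X Y hX hY
    unfold chi
    apply finsum_eq_zero_of_forall_eq_zero
    intro n
    have := (hS.tri i)
    have := (hS.iso i)
    have hsub : Subsingleton (X ⟶ Y⟦n⟧) := ⟨fun f g => by
      rw [hS.orth i j hij X (Y⟦n⟧) hX ((B i).le_shift n _ hY) f,
        hS.orth i j hij X (Y⟦n⟧) hX ((B i).le_shift n _ hY) g]⟩
    rw [Module.finrank_zero_of_subsingleton]
    simp
  have hd01 : d₁ = d₀ := by
    rcases lt_trichotomy j₀ j₁ with hlt | heq | hgt
    · exfalso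
      have h := orth j₀ j₁ hlt (N j₁) P₀ (hN j₁) hP₀
      rw [hchi₀, hd₁] at h
      have hs : ((n₀.negOnePow : ℤˣ) : ℤ) ≠ 0 := (n₀.negOnePow).ne_zero
      have h' : r (N j₁) * (1 + d₀) - r (N j₁) * d₁ = 0 :=
        (mul_eq_zero.1 h).resolve_left hs
      obtain ⟨a, ha⟩ := he₁
      rcases hr₁ with h'' | h'' <;> rw [h''] at h' <;> omega
    · subst heq
      rcases hr₀ with h | h <;> rw [h] at hd₀ hd₁ <;> linarith
    · exfalso
      have h := orth j₁ j₀ hgt (N j₀) P₁ (hN j₀) hP₁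
      rw [hchi₁, hd₀] at h
      have hs : ((n₁.negOnePow : ℤˣ) : ℤ) ≠ 0 := (n₁.negOnePow).ne_zero
      have h' : r (N j₀) * (1 + d₁) - r (N j₀) * d₀ = 0 :=
        (mul_eq_zero.1 h).resolve_left hs
      obtain ⟨a, ha⟩ := he₁
      rcases hr₀ with h'' | h'' <;> rw [h''] at h' <;> omega
  exact hφ₁ (hz₁ i₀ (by rw [hd01, hi₀]; ring))

end

end Pool.CRD
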