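import Pool.Agent.CRD.Top.T1
import Pool.Agent.CRD.Top.T2
import Pool.Agent.CRD.Br.Asm

/-!
# CRD: T1 and T2 in the form of the final assembly
-/

open CategoryTheory

namespace Pool.CRD

theorem t1a_proof : Stmt_T1A := by
  intro K _ T _ _ _ _ _ _ _ T' _ _ _ _ _ _ _ _ _
  exact T1_proof (K := K) (T := T) T'

theorem t2a_proof : Stmt_T2A := by
  intro K _ _ T _ _ _ _ _ _ _
  exact T2_proof (K := K) (T := T)

end Pool.CRD
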