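import Pool.Agent.CRD.Top.T1a

/-!
# CRD, T1: the EM step
-/

open CategoryTheory Opposite Limits Pretriangulated

universe v v' u u' w

namespace Pool.CRD

section
variable {K : Type w} [Field K] {T : Type u} [Category.{v} T] [HasZeroObject T] [HasShift T ℤ]
  [Preadditive T] [∀ (n : ℤ), (shiftFunctor T n).Additive] [Pretriangulated T] [Linear K T]

/-- the local duality step: `P` is in the essential image of `F` -/
lemma unit_isIso {S : Type u'} [Category.{v'} S] [HasZeroObject S] [HasShift S ℤ]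
    [Preadditive S] [∀ (n : ℤ), (shiftFunctor S n).Additive] [Pretriangulated S]
    {Λ : T ⥤ S} {F : S ⥤ T} (adj : Λ ⊣ F) [Λ.CommShift ℤ] [Λ.IsTriangulated]
    [F.Full] [F.Faithful] [F.Additive]
    (ψ : CycFun K T) (hψ : ∀ C : T, IsZero (Λ.obj C) → ψ.φ C = 0) (P : T) (hP : ψ.φ P ≠ 0)
    (h1 : Module.finrank K (P ⟶ P⟦(2 : ℤ)⟧) = 1)
    (hd : ∀ (M : T) (f : M ⟶ P), f ≠ 0 → ∃ h : P ⟶ M⟦(2 : ℤ)⟧, h ≫ f⟦(2 : ℤ)⟧' ≠ 0) :
    IsIso (adj.unit.app P) := by
  obtain ⟨Z, g, h, hT⟩ := distinguished_cocone_triangle (adj.unit.app P)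
  have hT' := inv_rot_of_distTriang _ hT
  -- the cone is killed by Λ
  have hΛη : IsIso (Λ.map (adj.unit.app P)) := inferInstance
  set C := (Triangle.mk (adj.unit.app P) g h).invRotate.obj₁ with hC
  set d : C ⟶ P := (Triangle.mk (adj.unit.app P) g h).invRotate.mor₁ with hdd
  have hzero : IsZero (Λ.obj C) :=
    (Triangle.isZero₁_iff_isIso₂ _ (Λ.map_distinguished _ hT')).2 hΛη
  have hd0 : d = 0 := by
    by_contra hne
    obtain ⟨k, hk⟩ := hd C d hne
    have h2 := ψ.cyc d k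
    rw [hψ C hzero, LinearMap.zero_apply] at h2
    -- ψ_P is injective
    apply hP
    ext x
    obtain ⟨c, hc⟩ := (finrank_eq_one_iff_of_nonzero' (k ≫ d⟦(2 : ℤ)⟧') hk).1 h1 x
    rw [← hc, map_smul, ← h2, smul_zero, LinearMap.zero_apply]
  obtain ⟨r, hr⟩ := Triangle.yoneda_exact₂ _ hT' (𝟙 P) (by
    change d ≫ 𝟙 P = 0
    rw [hd0, zero_comp])
  change 𝟙 P = adj.unit.app P ≫ r at hr
  refine ⟨r, hr.symm, ?_⟩
  have h3 : F.preimage (r ≫ adj.unit.app P) = 𝟙 (Λ.obj P) := by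
    apply (adj.homEquiv _ _).injective
    rw [Adjunction.homEquiv_unit, Adjunction.homEquiv_unit, Functor.map_preimage,
      CategoryTheory.Functor.map_id, ← Category.assoc, ← hr]
    exact (Category.id_comp _).trans (Category.comp_id _).symm
  have h4 := congr_arg F.map h3
  rw [Functor.map_preimage, CategoryTheory.Functor.map_id] at h4
  exact h4

/-- T1 -/
theorem T1_proof (T' : Type u') [Category.{v'} T'] [HasZeroObject T'] [HasShift T' ℤ]
    [Preadditive T'] [∀ (n : ℤ), (shiftFunctor T' n).Additive] [Pretriangulated T']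
    [Linear K T'] [∀ n : ℤ, (shiftFunctor T n).Linear K] [∀ n : ℤ, (shiftFunctor T' n).Linear K] :
    Stmt_T1 K T T' := by
  intro B _ _ hA hY
  obtain ⟨F, hcs, htri, hadd, hfull, hfaith, hlin, hR, hL⟩ := hA
  letI := hcs
  haveI := htri
  haveI := hadd
  haveI := hfull
  haveI := hfaith
  haveI : F.Linear K := ⟨fun {X Y} f r => hlin X Y f r⟩
  obtain ⟨O, pt, hfin, hY1, hY2⟩ := hY
  let Λ := F.leftAdjoint
  let adj : Λ ⊣ F := Adjunction.ofIsRightAdjoint F
  letI : Λ.CommShift ℤ := adj.leftAdjointCommShift ℤ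
  haveI : adj.CommShift ℤ := adj.commShift_of_rightAdjoint ℤ
  haveI : Λ.IsTriangulated := adj.isTriangulated_leftAdjoint
  haveI : Λ.Additive := adj.left_adjoint_additive
  haveI : Λ.Linear K := adj_linear adj
  refine ⟨(Λ.obj O).obj, (Λ.obj O).property, ?_⟩
  rintro φ ⟨M, hM, hφM⟩
  -- the functional on the block
  let φB : CycFun K B.FullSubcategory := φ.pull B.ι
  have hB : φB.φ ⟨M, hM⟩ ≠ 0 := by
    intro h0
    apply hφM
    ext x
    let E := ffEquiv (K := K) B.ι ⟨M, hM⟩ ⟨M, hM⟩ (2 : ℤ)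
    have h1 : φB.φ ⟨M, hM⟩ (E.symm x) = φ.φ M (E (E.symm x)) := rfl
    rw [E.apply_symm_apply, h0, LinearMap.zero_apply] at h1
    rw [← h1, LinearMap.zero_apply]
  -- the pulled back functional
  have hψ0 : (φB.pull Λ).φ (F.obj ⟨M, hM⟩) ≠ 0 := by
    apply CycFun.pull_ne _ F
    haveI : NatTrans.CommShift (asIso adj.counit).hom ℤ :=
      inferInstanceAs (NatTrans.CommShift adj.counit ℤ)
    rw [CycFun.pull_comp, CycFun.pull_iso φB (asIso adj.counit), CycFun.pull_id]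
    exact hB
  obtain ⟨P₀, hP₀, n, hn⟩ : ∃ P, pt P ∧ ∃ n : ℤ, (φB.pull Λ).φ (P⟦n⟧) ≠ 0 := by
    by_contra hcon
    push Not at hcon
    exact hψ0 (hY1 (φB.pull Λ) hcon _)
  have hn' := (φB.pull Λ).tr_ne n P₀ hn
  obtain ⟨hpl, hO, hsym, hdual⟩ := hY2 P₀ hP₀ (by
    by_contra hcon
    push Not at hcon
    apply hn'
    ext x
    rw [hcon x, map_zero, LinearMap.zero_apply])
  haveI : IsIso (adj.unit.app P₀) := by
    refine unit_isIso adj ((φB.pull Λ).tr n) ?_ P₀ hn' hpl.2.2.2.1 hdual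
    intro C hC
    ext x
    have hz : IsZero (Λ.obj (C⟦n⟧)) :=
      ((shiftFunctor B.FullSubcategory n).map_isZero hC).of_iso ((Λ.commShiftIso n).app C)
    rw [CycFun.tr_apply, CycFun.pull_apply, hz.eq_of_src (Λ.map (x⟦n⟧' ≫
      (shiftComm C (2 : ℤ) n).hom) ≫ (Λ.commShiftIso (2 : ℤ)).hom.app (C⟦n⟧)) 0, map_zero,
      LinearMap.zero_apply]
  let e : P₀ ≅ F.obj (Λ.obj P₀) := asIso (adj.unit.app P₀)
  let Q : B.FullSubcategory := Λ.obj P₀
  have c1 : chi K (Λ.obj O).obj Q.obj = 1 := by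
    rw [← hO]
    exact chi_congr (fun m => ⟨((ffEquiv (K := K) B.ι (Λ.obj O) Q m).symm.trans
      (adjEquiv adj O Q m)).trans (isoEquiv (Iso.refl O) e.symm m)⟩)
  have c2 : chi K Q.obj (Λ.obj O).obj = 1 := by
    have h1 : chi K Q.obj (Λ.obj O).obj = chi K P₀ (F.obj (Λ.obj O)) :=
      chi_congr (fun m => ⟨((ffEquiv (K := K) B.ι Q (Λ.obj O) m).symm.trans
        (ffEquiv F Q (Λ.obj O) m)).trans (isoEquiv e.symm (Iso.refl _) m)⟩)
    have h2 : chi K (Λ.obj O).obj Q.obj = chi K (F.obj (Λ.obj O)) P₀ :=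
      chi_congr (fun m => ⟨((ffEquiv (K := K) B.ι (Λ.obj O) Q m).symm.trans
        (ffEquiv F (Λ.obj O) Q m)).trans (isoEquiv (Iso.refl _) e.symm m)⟩)
    rw [h1, hsym, ← h2, c1]
  refine ⟨Q.obj⟦n⟧, B.le_shift n _ Q.property, ?_, ?_, (n.negOnePow : ℤ), ?_, ?_, ?_⟩
  · apply pointLike_shift
    exact pointLike_congr (fun m => ⟨((ffEquiv (K := K) B.ι Q Q m).symm.trans
      (ffEquiv F Q Q m)).trans (isoEquiv e.symm e.symm m)⟩) hpl
  · have h1 := CycFun.pull_ne φB Λ _ hn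
    have h2 := φB.ne_of_iso ((Λ.commShiftIso n).app P₀) h1
    have h3 := CycFun.pull_ne φ B.ι _ h2
    exact φ.ne_of_iso ((B.ι.commShiftIso n).app Q) h3
  · rcases Int.even_or_odd n with h | h
    · left; rw [Int.negOnePow_even n h]; rfl
    · right; rw [Int.negOnePow_odd n h]; rfl
  · rw [chi_shift_right, c1, mul_one]
  · rw [chi_shift_left, c2, mul_one]

end

end Pool.CRD
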